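import Mathlib

/-! Reflective checker for identities in class-two groups generated by conjugates of an involution. -/
namespace E4.C2

def push (w c : ℕ) : ℕ :=
  bif (Nat.ble 16 w) && ((Nat.ble 2 c && Nat.ble c 7) && (Nat.beq (w % 16) (Nat.xor c 1))) then
    w / 16 else w * 16 + c

def pushL : ℕ → List ℕ → ℕ
  | w, [] => w
  | w, c :: l => pushL (push w c) l

/-- `1 k^i u` -/
def kpow (k u : List ℕ) : ℕ → ℕ → ℕ
  | w, 0 => pushL w u
  | w, i + 1 => kpow k u (pushL w k) i

def upow (u k : List ℕ) : ℕ → ℕ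
  | 0 => pushL 1 u
  | i + 1 => pushL (upow u k i) k

/-- relator `E(u) E(ku) E(k²u) E(k³u)` -/
def wR (u k : List ℕ) : List ℕ := [kpow k u 1 0, kpow k u 1 1, kpow k u 1 2, kpow k u 1 3]

/-- relator `n^(k³) n^(k²) n^k n`, `n = E(w) E(u)` -/
def wB (w u k : List ℕ) : List ℕ :=
  [upow w k 3, upow u k 3, upow w k 2, upow u k 2, upow w k 1, upow u k 1, upow w k 0, upow u k 0]

/-- `[R(u,k), E(v)]` -/
def wL (u k v : List ℕ) : List ℕ :=
  wR u k ++ (pushL 1 v :: ((wR u k).reverse ++ [pushL 1 v]))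

def digs : ℕ → ℕ → List ℕ
  | 0, _ => []
  | f + 1, n => bif Nat.beq n 0 then [] else (n % 16) :: digs f (n / 16)

def consH (c : ℕ) : List (List ℕ) → List (List ℕ)
  | [] => [[c]]
  | h :: t => (c :: h) :: t

/-- split at the digit `s` -/
def spl (s : ℕ) : List ℕ → List (List ℕ)
  | [] => [[]]
  | c :: l => bif Nat.beq c s then [] :: spl s l else consH c (spl s l)

def lt8 : List (List ℕ) → Bool
  | [] => true
  | l :: t => (l.all fun c => Nat.ble 2 c && Nat.ble c 7) && lt8 t

/-- words of a list of relators `u, k` -/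
def wY : List (List ℕ) → List ℕ
  | u :: k :: t => wR u k ++ wY t
  | _ => []

/-- inverse word with an accumulator -/
def invA : List ℕ → List ℕ → List ℕ
  | [], acc => acc
  | c :: l, acc => invA l (Nat.xor c 1 :: acc)

/-- word of one instance: digit 8 separates the fields -/
def wI : List (List ℕ) → List ℕ
  | [9] :: t => bif lt8 t then wY t else []
  | [[10], w, u, k] => bif lt8 [w, u, k] then
      wB w u k ++ (wR u (u ++ (k ++ invA u [])) ++ wR w (w ++ (k ++ invA w []))) else []
  | [[11], u, k, v] => bif lt8 [u, k, v] then wL u k v else []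
  | _ => []

def S : ℕ := 18446744073709551616

/-- insertion of a generator into a descending list -/
def ins (g : ℕ) : List ℕ → List ℕ
  | [] => [g]
  | h :: t => bif Nat.blt g h then h :: ins g t else bif Nat.beq g h then t else g :: h :: t

def insP (g : ℕ) : List ℕ → List ℕ
  | [] => []
  | h :: t => bif Nat.blt g h then (h * S + g) :: insP g t else []

/-- process a word: state = descending list, accumulated pair lists (one list per letter) -/
def run : List ℕ → List (List ℕ) → List ℕ → List ℕ × List (List ℕ)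
  | st, acc, [] => (st, acc)
  | st, acc, g :: w => run (ins g st) (insP g st :: acc) w

/-- merge of descending lists, cancelling equal heads -/
def mrg : ℕ → List ℕ → List ℕ → List ℕ
  | 0, a, b => a ++ b
  | _ + 1, [], b => b
  | _ + 1, a :: l, [] => a :: l
  | f + 1, x :: a, y :: b =>
      bif Nat.beq x y then mrg f a b else
      bif Nat.ble y x then x :: mrg f a (y :: b) else y :: mrg f (x :: a) b

def pairUp : List (List ℕ) → List (List ℕ)
  | a :: b :: t => mrg 1000000 a b :: pairUp t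
  | l => l

def tree : ℕ → List (List ℕ) → List (List ℕ)
  | 0, l => l
  | f + 1, l => tree f (pairUp l)

def isE : List (List ℕ) → Bool
  | [] => true
  | [] :: l => isE l
  | (_ :: _) :: _ => false

def small (w : List ℕ) : Bool := w.all fun c => Nat.blt c S

/-- pairs of one word, `[]` if the linear part is not zero -/
def grp (w : List ℕ) : List (List ℕ) :=
  bif small w && (run [] [] w).1.isEmpty then (run [] [] w).2 else []

def allI : List (List ℕ) → List (List ℕ)
  | [] => []
  | l :: t => grp (wI (spl 8 l)) ++ allI t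

/-- the pair lists of a packed certificate: digit 1 separates the instances -/
def certP : List ℕ → List (List ℕ)
  | [] => []
  | c :: l => tree 12 (allI (spl 1 (digs 100000 c))) ++ certP l

/-- the checker: `tgt` is a word in the generators given as codes -/
def chk (tgt : List (List ℕ)) (cert : List ℕ) : Bool :=
  (lt8 tgt && small (tgt.map (pushL 1))) && ((run [] [] (tgt.map (pushL 1))).1.isEmpty &&
    isE (tree 24 ((run [] [] (tgt.map (pushL 1))).2 ++ certP cert)))

section
variable {Γ : Type*} [Group Γ] (ρ : ℕ → Γ)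

/-- value of a code -/
def evC (n : ℕ) : Γ := if _h : n < 16 then 1 else evC (n / 16) * ρ (n % 16)
termination_by n
decreasing_by omega

def evL : List ℕ → Γ
  | [] => 1
  | c :: l => ρ c * evL l

variable (e : Γ)

/-- the conjugate of `e` by the element with code `c` -/
def E (c : ℕ) : Γ := (evC ρ c)⁻¹ * e * evC ρ c

def evW : List ℕ → Γ
  | [] => 1
  | c :: w => E ρ e c * evW w

/-- value of a descending list -/
def sv : List ℕ → Γ
  | [] => 1
  | h :: t => sv t * E ρ e h

/-- the commutator of two involutions, coded by `h * S + g` -/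
def cc (n : ℕ) : Γ := E ρ e (n / S) * E ρ e (n % S) * E ρ e (n / S) * E ρ e (n % S)

def pv : List ℕ → Γ
  | [] => 1
  | n :: t => cc ρ e n * pv t

def pvv : List (List ℕ) → Γ
  | [] => 1
  | l :: t => pv ρ e l * pvv t

/-- the hypotheses -/
structure Ok : Prop where
  inv : ρ 3 = (ρ 2)⁻¹ ∧ ρ 5 = (ρ 4)⁻¹ ∧ ρ 7 = (ρ 6)⁻¹
  four : ∀ g : Γ, g ^ 4 = 1
  two : e * e = 1
  cls : ∀ a b c : Γ, Commute ((a⁻¹ * e * a) * (b⁻¹ * e * b) * (a⁻¹ * e * a) * (b⁻¹ * e * b)) (c⁻¹ * e * c)

variable {ρ e}

theorem Ok.rinv (H : Ok ρ e) (c : ℕ) (h2 : 2 ≤ c) (h7 : c ≤ 7) : ρ (Nat.xor c 1) = (ρ c)⁻¹ := by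
  obtain ⟨a, b, d⟩ := H.inv
  interval_cases c
  · exact a
  · show ρ 2 = _; rw [a, inv_inv]
  · exact b
  · show ρ 4 = _; rw [b, inv_inv]
  · exact d
  · show ρ 6 = _; rw [d, inv_inv]

theorem evC_app (w c : ℕ) (hw : 1 ≤ w) (hc : c < 16) : evC ρ (w * 16 + c) = evC ρ w * ρ c := by
  rw [evC, dif_neg (by omega)]
  have h1 : (w * 16 + c) / 16 = w := by omega
  have h2 : (w * 16 + c) % 16 = c := by omega
  rw [h1, h2]

theorem evC_one : evC ρ 1 = 1 := by rw [evC]; simp

theorem push_ev (H : Ok ρ e) (w c : ℕ) (hw : 1 ≤ w) (hc : c < 16) :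
    1 ≤ push w c ∧ evC ρ (push w c) = evC ρ w * ρ c := by
  unfold push
  cases hb : (Nat.ble 16 w) && ((Nat.ble 2 c && Nat.ble c 7) && (Nat.beq (w % 16) (Nat.xor c 1)))
  · simp only [cond_false]
    exact ⟨by omega, evC_app w c hw hc⟩
  · simp only [cond_true]
    simp only [Bool.and_eq_true, Nat.ble_eq, Nat.beq_eq] at hb
    obtain ⟨h16, ⟨h2, h7⟩, he⟩ := hb
    refine ⟨by omega, ?_⟩
    conv_rhs => rw [evC, dif_neg (by omega)]
    rw [he, H.rinv c h2 h7, mul_assoc, inv_mul_cancel, mul_one]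

theorem pushL_ev (H : Ok ρ e) (l : List ℕ) : ∀ w : ℕ, 1 ≤ w → (∀ c ∈ l, c < 16) →
    1 ≤ pushL w l ∧ evC ρ (pushL w l) = evC ρ w * evL ρ l := by
  induction l with
  | nil => intro w hw _; exact ⟨hw, by simp [pushL, evL]⟩
  | cons c l ih =>
    intro w hw hl
    obtain ⟨h1, h2⟩ := push_ev H w c hw (hl c (by simp))
    obtain ⟨h3, h4⟩ := ih (push w c) h1 (fun d hd => hl d (by simp [hd]))
    refine ⟨h3, ?_⟩
    show evC ρ (pushL (push w c) l) = _
    rw [h4, h2, evL, mul_assoc]

theorem kpow_ev (H : Ok ρ e) (k u : List ℕ) (hk : ∀ c ∈ k, c < 16) (hu : ∀ c ∈ u, c < 16) (i : ℕ) :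
    ∀ w : ℕ, 1 ≤ w → evC ρ (kpow k u w i) = evC ρ w * evL ρ k ^ i * evL ρ u := by
  induction i with
  | zero => intro w hw; rw [kpow, (pushL_ev H u w hw hu).2, pow_zero, mul_one]
  | succ i ih =>
    intro w hw
    obtain ⟨h1, h2⟩ := pushL_ev H k w hw hk
    rw [kpow, ih _ h1, h2, pow_succ']
    group

theorem upow_ev (H : Ok ρ e) (u k : List ℕ) (hk : ∀ c ∈ k, c < 16) (hu : ∀ c ∈ u, c < 16) (i : ℕ) :
    1 ≤ upow u k i ∧ evC ρ (upow u k i) = evL ρ u * evL ρ k ^ i := by
  induction i with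
  | zero =>
    obtain ⟨h1, h2⟩ := pushL_ev H u 1 le_rfl hu
    exact ⟨h1, by rw [upow, h2, evC_one, one_mul, pow_zero, mul_one]⟩
  | succ i ih =>
    obtain ⟨h1, h2⟩ := pushL_ev H k _ ih.1 hk
    refine ⟨h1, ?_⟩
    rw [upow, h2, ih.2, pow_succ]
    group

theorem E_sq (H : Ok ρ e) (c : ℕ) : E ρ e c * E ρ e c = 1 := by
  unfold E
  calc _ = (evC ρ c)⁻¹ * (e * e) * evC ρ c := by group
    _ = 1 := by rw [H.two]; group

theorem conj_sq (H : Ok ρ e) (a : Γ) : (a⁻¹ * e * a) * (a⁻¹ * e * a) = 1 := by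
  calc _ = a⁻¹ * (e * e) * a := by group
    _ = 1 := by rw [H.two]; group

theorem ab_sw (H : Ok ρ e) (a b : ℕ) :
    E ρ e a * E ρ e b = E ρ e b * E ρ e a * (E ρ e a * E ρ e b * E ρ e a * E ρ e b) := by
  have ha := E_sq H a
  have hb := E_sq H b
  calc E ρ e a * E ρ e b = E ρ e b * (E ρ e b * (E ρ e a * E ρ e b)) := by
        rw [← mul_assoc (E ρ e b) (E ρ e b), hb, one_mul]
    _ = E ρ e b * (E ρ e a * E ρ e a) * (E ρ e b * (E ρ e a * E ρ e b)) := by rw [ha, mul_one]
    _ = _ := by group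

theorem cc_comm (H : Ok ρ e) (n c : ℕ) : Commute (cc ρ e n) (E ρ e c) := H.cls _ _ _

theorem cc_cc (H : Ok ρ e) (n m : ℕ) : Commute (cc ρ e n) (cc ρ e m) := by
  have h := cc_comm H n
  exact (((h _).mul_right (h _)).mul_right (h _)).mul_right (h _)

theorem cc_sq (H : Ok ρ e) (n : ℕ) : cc ρ e n * cc ρ e n = 1 := by
  have h := (cc_comm H n (n / S)).eq
  have ha := E_sq H (n / S)
  have hb := E_sq H (n % S)
  set a := E ρ e (n / S)
  set b := E ρ e (n % S)
  have hc : cc ρ e n = a * b * a * b := rfl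
  rw [hc] at h ⊢
  have h1 : a * (a * b * a * b) * a = b * a * b * a := by
    calc a * (a * b * a * b) * a = (a * a) * b * a * b * a := by group
      _ = _ := by rw [ha]; group
  have h2 : a * (a * b * a * b) * a = a * b * a * b := by
    rw [← h, mul_assoc, ha, mul_one]
  calc a * b * a * b * (a * b * a * b) = (a * b * a * b) * (b * a * b * a) := by rw [← h1, h2]
    _ = a * b * a * (b * b) * a * b * a := by group
    _ = a * b * (a * a) * b * a := by rw [hb]; group
    _ = a * (b * b) * a := by rw [ha]; group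
    _ = 1 := by rw [hb, mul_one, ha]

theorem pv_comm (H : Ok ρ e) (c : ℕ) (l : List ℕ) : Commute (pv ρ e l) (E ρ e c) := by
  induction l with
  | nil => exact Commute.one_left _
  | cons n l ih => exact (cc_comm H n c).mul_left ih

theorem pv_cc (H : Ok ρ e) (m : ℕ) (l : List ℕ) : Commute (cc ρ e m) (pv ρ e l) := by
  induction l with
  | nil => exact Commute.one_right _
  | cons n l ih => exact (cc_cc H m n).mul_right ih

theorem pvv_comm (H : Ok ρ e) (c : ℕ) (l : List (List ℕ)) : Commute (pvv ρ e l) (E ρ e c) := by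
  induction l with
  | nil => exact Commute.one_left _
  | cons n l ih => exact (pv_comm H c n).mul_left ih

theorem ins_ev (H : Ok ρ e) (g : ℕ) (hg : g < S) (l : List ℕ) :
    sv ρ e l * E ρ e g = sv ρ e (ins g l) * pv ρ e (insP g l) := by
  induction l with
  | nil => simp [ins, insP, sv, pv]
  | cons h t ih =>
    unfold ins insP
    cases hb : Nat.blt g h
    · simp only [cond_false]
      cases hc : Nat.beq g h
      · simp only [cond_false, pv, mul_one, sv]
      · have hgh : g = h := Nat.eq_of_beq_eq_true hc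
        subst hgh
        simp only [cond_true, pv, mul_one, sv]
        rw [mul_assoc, E_sq H, mul_one]
    · simp only [cond_true, sv, pv]
      have e1 : cc ρ e (h * S + g) = E ρ e h * E ρ e g * E ρ e h * E ρ e g := by
        unfold cc
        have hS : 0 < S := by unfold S; norm_num
        have d1 : (h * S + g) / S = h := by
          rw [Nat.mul_comm, Nat.mul_add_div hS, Nat.div_eq_of_lt hg, Nat.add_zero]
        have d2 : (h * S + g) % S = g := by
          rw [Nat.mul_comm, Nat.mul_add_mod, Nat.mod_eq_of_lt hg]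
        rw [d1, d2]
      rw [mul_assoc, ab_sw H h g, ← e1]
      have e2 := pv_comm H h (insP g t)
      calc sv ρ e t * (E ρ e g * E ρ e h * cc ρ e (h * S + g))
          = (sv ρ e t * E ρ e g) * E ρ e h * cc ρ e (h * S + g) := by group
        _ = sv ρ e (ins g t) * (pv ρ e (insP g t) * E ρ e h) * cc ρ e (h * S + g) := by rw [ih]; group
        _ = sv ρ e (ins g t) * E ρ e h * (pv ρ e (insP g t) * cc ρ e (h * S + g)) := by rw [e2.eq]; group
        _ = sv ρ e (ins g t) * E ρ e h * (cc ρ e (h * S + g) * pv ρ e (insP g t)) := by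
            rw [(pv_cc H _ _).eq]

theorem run_ev (H : Ok ρ e) (w : List ℕ) (hw : ∀ c ∈ w, c < S) : ∀ (st : List ℕ) (acc : List (List ℕ)),
    sv ρ e st * pvv ρ e acc * evW ρ e w = sv ρ e (run st acc w).1 * pvv ρ e (run st acc w).2 := by
  induction w with
  | nil => intro st acc; simp [run, evW]
  | cons g w ih =>
    intro st acc
    rw [run, ← ih (fun c hc => hw c (by simp [hc])), evW, pvv]
    have e1 := pvv_comm H g acc
    have e2 := ins_ev H g (hw g (by simp)) st
    calc sv ρ e st * pvv ρ e acc * (E ρ e g * evW ρ e w)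
        = sv ρ e st * (pvv ρ e acc * E ρ e g) * evW ρ e w := by group
      _ = (sv ρ e st * E ρ e g) * pvv ρ e acc * evW ρ e w := by rw [e1.eq]; group
      _ = _ := by rw [e2]; group

theorem pv_append (a b : List ℕ) : pv ρ e (a ++ b) = pv ρ e a * pv ρ e b := by
  induction a with
  | nil => simp [pv]
  | cons c a ih => simp [pv, ih, mul_assoc]

theorem mrg_ev (H : Ok ρ e) : ∀ (f : ℕ) (a b : List ℕ), pv ρ e (mrg f a b) = pv ρ e a * pv ρ e b := by
  intro f
  induction f with
  | zero => intro a b; simp [mrg, pv_append]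
  | succ f ih =>
    intro a b
    match a, b with
    | [], b => simp [mrg, pv]
    | a :: l, [] => simp [mrg, pv]
    | x :: a, y :: b =>
      simp only [mrg]
      have hy := pv_cc H y a
      cases hb : Nat.beq x y
      · rw [cond_false]
        cases hc : Nat.ble y x
        · rw [cond_false]
          simp only [pv, ih]
          have hx := cc_cc H y x
          calc cc ρ e y * (cc ρ e x * pv ρ e a * pv ρ e b)
              = (cc ρ e y * cc ρ e x) * pv ρ e a * pv ρ e b := by group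
            _ = cc ρ e x * (cc ρ e y * pv ρ e a) * pv ρ e b := by rw [hx.eq]; group
            _ = _ := by rw [hy.eq]; group
        · rw [cond_true]
          simp only [pv, ih]
          group
      · rw [cond_true, ih]
        have hxy : x = y := Nat.eq_of_beq_eq_true hb
        subst hxy
        simp only [pv]
        have h2 := cc_sq H x
        calc pv ρ e a * pv ρ e b = (cc ρ e x * cc ρ e x) * pv ρ e a * pv ρ e b := by rw [h2, one_mul]
          _ = cc ρ e x * (cc ρ e x * pv ρ e a) * pv ρ e b := by group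
          _ = cc ρ e x * (pv ρ e a * cc ρ e x) * pv ρ e b := by rw [hy.eq]
          _ = _ := by group

theorem pairUp_ev (H : Ok ρ e) : ∀ (l : List (List ℕ)), pvv ρ e (pairUp l) = pvv ρ e l
  | [] => rfl
  | [_] => rfl
  | a :: b :: t => by
    simp only [pairUp, pvv, mrg_ev H, pairUp_ev H t, mul_assoc]

theorem tree_ev (H : Ok ρ e) (f : ℕ) : ∀ (l : List (List ℕ)), pvv ρ e (tree f l) = pvv ρ e l := by
  induction f with
  | zero => intro l; rfl
  | succ f ih => intro l; rw [tree, ih, pairUp_ev H]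

theorem isE_ev (l : List (List ℕ)) (h : isE l = true) : pvv ρ e l = 1 := by
  induction l with
  | nil => rfl
  | cons a l ih =>
    cases a with
    | nil => simp only [isE] at h; simp [pvv, pv, ih h]
    | cons c a => simp [isE] at h

theorem evW_append (a b : List ℕ) : evW ρ e (a ++ b) = evW ρ e a * evW ρ e b := by
  induction a with
  | nil => simp [evW]
  | cons c a ih => simp [evW, ih, mul_assoc]

theorem four_mul (H : Ok ρ e) (g : Γ) : g * g * g * g = 1 := by
  have h := H.four g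
  rwa [pow_succ, pow_succ, pow_two] at h

/-- the relator of exponent four: `E(u) E(ku) E(k²u) E(k³u) = 1` in a group of exponent four -/
theorem rel4 (H : Ok ρ e) (k u : Γ) :
    (u⁻¹ * e * u) * ((k * u)⁻¹ * e * (k * u)) * ((k ^ 2 * u)⁻¹ * e * (k ^ 2 * u)) *
      ((k ^ 3 * u)⁻¹ * e * (k ^ 3 * u)) = 1 := by
  have h := four_mul H (e * k⁻¹)
  have hk := H.four k
  have e1 : (u⁻¹ * e * u) * ((k * u)⁻¹ * e * (k * u)) * ((k ^ 2 * u)⁻¹ * e * (k ^ 2 * u)) *
      ((k ^ 3 * u)⁻¹ * e * (k ^ 3 * u)) =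
      u⁻¹ * (e * k⁻¹ * (e * k⁻¹) * (e * k⁻¹) * (e * k⁻¹)) * k ^ 4 * u := by
    group
  rw [e1, h, hk]
  group

/-- the relator `n^(k³) n^(k²) n^k n = 1` -/
theorem relN (H : Ok ρ e) (k n : Γ) :
    (k ^ 3)⁻¹ * n * k ^ 3 * ((k ^ 2)⁻¹ * n * k ^ 2) * (k⁻¹ * n * k) * n = 1 := by
  have h := four_mul H (n * k)
  have hk := H.four k
  have e1 : (k ^ 3)⁻¹ * n * k ^ 3 * ((k ^ 2)⁻¹ * n * k ^ 2) * (k⁻¹ * n * k) * n
      = k * (k ^ 4)⁻¹ * (n * k * (n * k) * (n * k) * (n * k)) * k⁻¹ := by
    group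
  rw [e1, h, hk]
  group

theorem lt8_cons {l : List ℕ} {t : List (List ℕ)} (h : lt8 (l :: t) = true) :
    (∀ c ∈ l, c < 16) ∧ lt8 t = true := by
  rw [lt8, Bool.and_eq_true] at h
  refine ⟨fun c hc => ?_, h.2⟩
  have := List.all_eq_true.1 h.1 c hc
  simp only [Bool.and_eq_true, Nat.ble_eq] at this
  omega

theorem wR_ev (H : Ok ρ e) (u k : List ℕ) (hu : ∀ c ∈ u, c < 16) (hk : ∀ c ∈ k, c < 16) :
    evW ρ e (wR u k) = 1 := by
  have h := kpow_ev H k u hk hu
  have h4 := rel4 H (evL ρ k) (evL ρ u)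
  simp only [wR, evW, E, h _ 1 le_rfl, evC_one, one_mul, pow_zero, pow_one, mul_one]
  rw [← h4]
  simp only [mul_assoc]

theorem wB_ev (H : Ok ρ e) (w u k : List ℕ) (hw : ∀ c ∈ w, c < 16) (hu : ∀ c ∈ u, c < 16)
    (hk : ∀ c ∈ k, c < 16) : evW ρ e (wB w u k) = 1 := by
  have h1 := fun i => (upow_ev H w k hk hw i).2
  have h2 := fun i => (upow_ev H u k hk hu i).2
  have h4 := relN H (evL ρ k) ((evL ρ w)⁻¹ * e * evL ρ w * ((evL ρ u)⁻¹ * e * evL ρ u))
  simp only [wB, evW, E, h1, h2]
  refine Eq.trans ?_ h4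
  group

theorem evW_rev (H : Ok ρ e) (w : List ℕ) : evW ρ e w * evW ρ e w.reverse = 1 := by
  induction w with
  | nil => simp [evW]
  | cons c w ih =>
    rw [List.reverse_cons, evW_append, evW, evW, evW, mul_one]
    calc E ρ e c * evW ρ e w * (evW ρ e w.reverse * E ρ e c)
        = E ρ e c * (evW ρ e w * evW ρ e w.reverse) * E ρ e c := by group
      _ = 1 := by rw [ih, mul_one, E_sq H]

theorem wL_ev (H : Ok ρ e) (u k v : List ℕ) (hu : ∀ c ∈ u, c < 16) (hk : ∀ c ∈ k, c < 16) :
    evW ρ e (wL u k v) = 1 := by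
  have h1 := wR_ev H u k hu hk
  have h2 := evW_rev H (wR u k)
  rw [h1, one_mul] at h2
  rw [wL, evW_append, h1, one_mul, evW, evW_append, h2, one_mul, evW, evW, mul_one, E_sq H]

theorem wY_ev (H : Ok ρ e) : ∀ (l : List (List ℕ)), lt8 l = true → evW ρ e (wY l) = 1
  | [], _ => rfl
  | [_], _ => rfl
  | u :: k :: t, hl => by
    rw [wY, evW_append, wR_ev H u k (lt8_cons hl).1 (lt8_cons (lt8_cons hl).2).1,
      wY_ev H t (lt8_cons (lt8_cons hl).2).2, one_mul]

theorem xor_lt {c : ℕ} (hc : c < 16) : Nat.xor c 1 < 16 := by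
  interval_cases c <;> decide

theorem invA_lt (l : List ℕ) (hl : ∀ c ∈ l, c < 16) : ∀ acc : List ℕ, (∀ c ∈ acc, c < 16) →
    ∀ c ∈ invA l acc, c < 16 := by
  induction l with
  | nil => intro acc h c hc; exact h c hc
  | cons a l ih =>
    intro acc h c hc
    refine ih (fun d hd => hl d (by simp [hd])) (Nat.xor a 1 :: acc) ?_ c hc
    intro d hd
    rcases List.mem_cons.1 hd with rfl | hd
    · exact xor_lt (hl a (by simp))
    · exact h d hd

theorem conj_lt (u k : List ℕ) (hu : ∀ c ∈ u, c < 16) (hk : ∀ c ∈ k, c < 16) :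
    ∀ c ∈ u ++ (k ++ invA u []), c < 16 := by
  intro c hc
  rcases List.mem_append.1 hc with h | h
  · exact hu c h
  · rcases List.mem_append.1 h with h | h
    · exact hk c h
    · exact invA_lt u hu [] (by simp) c h

theorem wI_ev (H : Ok ρ e) (l : List (List ℕ)) : evW ρ e (wI l) = 1 := by
  unfold wI
  split
  · next t =>
    cases hb : lt8 t
    · rfl
    · rw [cond_true]
      exact wY_ev H t hb
  · next w u k =>
    cases hb : lt8 [w, u, k]
    · rfl
    · rw [cond_true]
      have hw := (lt8_cons hb).1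
      have hu := (lt8_cons (lt8_cons hb).2).1
      have hk := (lt8_cons (lt8_cons (lt8_cons hb).2).2).1
      rw [evW_append, evW_append, wB_ev H _ _ _ hw hu hk, wR_ev H _ _ hu (conj_lt u k hu hk),
        wR_ev H _ _ hw (conj_lt w k hw hk)]
      simp
  · next u k v =>
    cases hb : lt8 [u, k, v]
    · rfl
    · rw [cond_true]
      exact wL_ev H _ _ _ (lt8_cons hb).1 (lt8_cons (lt8_cons hb).2).1
  · rfl

theorem pvv_append (a b : List (List ℕ)) : pvv ρ e (a ++ b) = pvv ρ e a * pvv ρ e b := by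
  induction a with
  | nil => simp [pvv]
  | cons c a ih => simp [pvv, ih, mul_assoc]

theorem run_one (H : Ok ρ e) (w : List ℕ) (hw : small w = true) (h1 : (run [] [] w).1.isEmpty = true) :
    evW ρ e w = pvv ρ e (run [] [] w).2 := by
  have h5 := run_ev H w (fun c hc => by
    have := List.all_eq_true.1 hw c hc
    simpa [Nat.blt_eq] using this) [] []
  rw [List.isEmpty_iff] at h1
  rw [h1] at h5
  simpa [sv, pvv] using h5

theorem grp_ev (H : Ok ρ e) (w : List ℕ) (hw : evW ρ e w = 1) : pvv ρ e (grp w) = 1 := by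
  unfold grp
  cases hb : small w && (run [] [] w).1.isEmpty
  · rfl
  · rw [cond_true]
    rw [Bool.and_eq_true] at hb
    rw [← run_one H w hb.1 hb.2, hw]

theorem allI_ev (H : Ok ρ e) (l : List (List ℕ)) : pvv ρ e (allI l) = 1 := by
  induction l with
  | nil => rfl
  | cons a l ih => rw [allI, pvv_append, ih, grp_ev H _ (wI_ev H _), one_mul]

theorem certP_ev (H : Ok ρ e) (l : List ℕ) : pvv ρ e (certP l) = 1 := by
  induction l with
  | nil => rfl
  | cons a l ih => rw [certP, pvv_append, ih, tree_ev H, allI_ev H, one_mul]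

/-- value of a target word given by lists of letters -/
def evT (ρ : ℕ → Γ) (e : Γ) : List (List ℕ) → Γ
  | [] => 1
  | l :: t => (evL ρ l)⁻¹ * e * evL ρ l * evT ρ e t

theorem tgt_ev (H : Ok ρ e) (t : List (List ℕ)) (ht : lt8 t = true) :
    evW ρ e (t.map (pushL 1)) = evT ρ e t := by
  induction t with
  | nil => rfl
  | cons l t ih =>
    obtain ⟨h1, h2⟩ := lt8_cons ht
    rw [List.map_cons, evW, ih h2, evT, E, (pushL_ev H l 1 le_rfl h1).2, evC_one, one_mul]

/-- SOUNDNESS -/
theorem chk_sound (H : Ok ρ e) (t : List (List ℕ)) (c : List ℕ) (hc : chk t c = true) :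
    evT ρ e t = 1 := by
  unfold chk at hc
  simp only [Bool.and_eq_true] at hc
  obtain ⟨⟨h1, h2⟩, h3, h4⟩ := hc
  have h6 := isE_ev (ρ := ρ) (e := e) _ h4
  rw [tree_ev H, pvv_append, certP_ev H, mul_one, ← run_one H _ h2 h3, tgt_ev H t h1] at h6
  exact h6

end

end E4.C2
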