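import Pool.Agent.Lib.MP_8a95e3_al.C2.JT

/-!
# JTh : the theorem JT for an involution with class-two normal closure (helper63)
-/

namespace E4.C2

section
variable {Γ : Type*} [Group Γ]

/-- the interpretation of the letters -/
def rho2 (x y : Γ) : ℕ → Γ
  | 2 => x
  | 3 => x⁻¹
  | 4 => y
  | 5 => y⁻¹
  | _ => 1

theorem rho2_ok {e : Γ} (h4 : ∀ g : Γ, g ^ 4 = 1) (h2 : e * e = 1)
    (hc : ∀ a b c : Γ, Commute ((a⁻¹ * e * a) * (b⁻¹ * e * b) * (a⁻¹ * e * a) * (b⁻¹ * e * b)) (c⁻¹ * e * c))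
    (x y : Γ) : Ok (rho2 x y) e :=
  ⟨⟨rfl, rfl, by simp [rho2]⟩, h4, h2, hc⟩

/-- JT with base point `1` -/
theorem jt1 {e : Γ} (h4 : ∀ g : Γ, g ^ 4 = 1) (h2 : e * e = 1)
    (hc : ∀ a b c : Γ, Commute ((a⁻¹ * e * a) * (b⁻¹ * e * b) * (a⁻¹ * e * a) * (b⁻¹ * e * b)) (c⁻¹ * e * c))
    (x y : Γ) :
    e * (y⁻¹ * e * y) * ((x⁻¹ * e * x) * ((x * y)⁻¹ * e * (x * y))) *
      ((y⁻¹ * e * y) * e * (((x * y)⁻¹ * e * (x * y)) * (x⁻¹ * e * x))) = 1 := by
  have h := chk_sound (rho2_ok h4 h2 hc x y) _ _ ok_JT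
  simp only [evT, evL, rho2, mul_one, inv_one, one_mul] at h
  rw [← h]
  simp only [mul_assoc]

/-- **JT**: in a group of exponent four let `e` be an involution whose conjugates generate a group of class two.
Then the elements `[n, h]`, `n` a conjugate of `e`, commute. -/
theorem jt {e : Γ} (h4 : ∀ g : Γ, g ^ 4 = 1) (h2 : e * e = 1)
    (hc : ∀ a b c : Γ, Commute ((a⁻¹ * e * a) * (b⁻¹ * e * b) * (a⁻¹ * e * a) * (b⁻¹ * e * b)) (c⁻¹ * e * c))
    (u v h : Γ) :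
    Commute ((u⁻¹ * e * u) * ((u * h)⁻¹ * e * (u * h))) ((v⁻¹ * e * v) * ((v * h)⁻¹ * e * (v * h))) := by
  have k := jt1 h4 h2 hc (v * u⁻¹) (u * h * u⁻¹)
  have q : ∀ a : Γ, (a⁻¹ * e * a) * (a⁻¹ * e * a) = 1 := fun a => by
    calc _ = a⁻¹ * (e * e) * a := by group
      _ = 1 := by rw [h2]; group
  set A := u⁻¹ * e * u with hA
  set B := (u * h)⁻¹ * e * (u * h) with hB
  set C := v⁻¹ * e * v with hC
  set D := (v * h)⁻¹ * e * (v * h) with hD
  have k2 : A * B * (C * D) * (B * A * (D * C)) = 1 := by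
    have e0 : A * B * (C * D) * (B * A * (D * C)) = u⁻¹ * (e * ((u * h * u⁻¹)⁻¹ * e * (u * h * u⁻¹)) *
      (((v * u⁻¹)⁻¹ * e * (v * u⁻¹)) * ((v * u⁻¹ * (u * h * u⁻¹))⁻¹ * e * (v * u⁻¹ * (u * h * u⁻¹)))) *
      (((u * h * u⁻¹)⁻¹ * e * (u * h * u⁻¹)) * e *
        (((v * u⁻¹ * (u * h * u⁻¹))⁻¹ * e * (v * u⁻¹ * (u * h * u⁻¹))) * ((v * u⁻¹)⁻¹ * e * (v * u⁻¹))))) * u := by
      simp only [hA, hB, hC, hD]
      group
    rw [e0, k]
    group
  have qA : A * A = 1 := q u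
  have qB : B * B = 1 := q _
  have qC : C * C = 1 := q v
  have qD : D * D = 1 := q _
  show A * B * (C * D) = C * D * (A * B)
  have e1 : B * A * (D * C) * (C * D * (A * B)) = 1 := by
    calc _ = B * A * D * (C * C) * D * A * B := by group
      _ = B * A * (D * D) * A * B := by rw [qC]; group
      _ = B * (A * A) * B := by rw [qD]; group
      _ = 1 := by rw [qA, mul_one, qB]
  calc A * B * (C * D) = A * B * (C * D) * (B * A * (D * C) * (C * D * (A * B))) := by rw [e1, mul_one]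
    _ = A * B * (C * D) * (B * A * (D * C)) * (C * D * (A * B)) := by group
    _ = _ := by rw [k2, one_mul]

end

end E4.C2
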